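import Pool.Agent.Work.MP_c71557_gt.F.Main
import Pool.Agent.Work.MP_c71557_gt.K.Kap
import Pool.Agent.Work.MP_c71557_gt.T.Set
import Pool.Agent.Work.MP_c71557_gt.T.Cnt

set_option autoImplicit false

/-!
# MP_c71557_gt: additive maps from the third homology of the group of compactly supported piecewise linear
homeomorphisms of the plane to the real numbers have a countable range
-/

namespace Pool.Agent.Results.MP_c71557_gt.CountableRange

/-- `σ` is a piecewise linear homeomorphism of the plane with compact support: `σ` and its inverse are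
continuous, and there are finitely many polytopes (convex hulls of finite sets) such that `σ` is affine on
each of them and the identity outside of their union. -/
def IsPLc (σ : Equiv.Perm (ℝ × ℝ)) : Prop :=
  Continuous ⇑σ ∧ Continuous ⇑σ.symm ∧
    ∃ P : Finset (Finset (ℝ × ℝ)),
      (∀ s ∈ P, ∃ A : (ℝ × ℝ) →ᵃ[ℝ] (ℝ × ℝ), Set.EqOn σ A (convexHull ℝ (↑s : Set (ℝ × ℝ)))) ∧
      ∀ x : ℝ × ℝ, x ∉ (⋃ s ∈ P, convexHull ℝ (↑s : Set (ℝ × ℝ))) → σ x = x

private theorem mem_iff (σ : Equiv.Perm (ℝ × ℝ)) : IsPLc σ ↔ σ ∈ C715.Gc := by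
  constructor
  · rintro ⟨h1, h2, P, h3, h4⟩
    rw [← C715.frz]
    exact Subgroup.subset_closure ⟨h1, h2, P, h4, fun s hs => by
      obtain ⟨A, hA⟩ := h3 s hs
      exact ⟨A, fun x hx => hA hx⟩⟩
  · intro h
    obtain ⟨h1, h2, P, h3, h4⟩ := C715.gc_poly σ h
    exact ⟨h1, h2, P, fun s hs => by
      obtain ⟨A, hA⟩ := h4 s hs
      exact ⟨A, fun x hx => hA x hx⟩, h3⟩

/-- the group of the piecewise linear homeomorphisms of the plane with compact support -/
def PLc : Subgroup (Equiv.Perm (ℝ × ℝ)) where
  carrier := {σ | IsPLc σ}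
  mul_mem' := fun ha hb => (mem_iff _).2 (mul_mem ((mem_iff _).1 ha) ((mem_iff _).1 hb))
  one_mem' := (mem_iff _).2 (one_mem _)
  inv_mem' := fun ha => (mem_iff _).2 (inv_mem ((mem_iff _).1 ha))

private theorem PLc_eq : PLc = C715.Gc := by
  ext σ
  exact mem_iff σ

/-- Every additive map from the third integral homology of `PLc`, the discrete group of the compactly
supported piecewise linear homeomorphisms of the plane, to `ℝ` has a countable range; so none of them is
surjective, in particular none which is induced by a class in the third real cohomology of the group. -/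
theorem result (f : groupHomology (Rep.trivial ℤ PLc ℤ) 3 →+ ℝ) :
    (Set.range f).Countable ∧ ¬ Function.Surjective f := by
  have h1 : Countable (C715.HC (C715.ActCat.sg PLc).Obj 3) := by
    rw [PLc_eq]
    exact C715.main_cnt C715.A0 C715.A0_wind C715.loc
  have h2 := C715.range_cnt PLc h1 f
  refine ⟨h2, fun hf => ?_⟩
  rw [hf.range_eq] at h2
  have h3 : Countable ℝ := Set.countable_univ_iff.1 h2
  exact not_countable h3

end Pool.Agent.Results.MP_c71557_gt.CountableRange
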